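import Mathlib
import Pool.Agent.Q103.LTS.Ht
import Pool.Agent.Results.MP_160b6c_nt.DegreeFreeTorsion

/-!
# Preperiodic points of Lattès maps: bounds which depend neither on the degree of the field nor on
# the degree of the map

Let `E : y² = x³ + a x + b` be an elliptic curve over a number field `L`. The Lattès maps of `E` are
the maps `φ_m` of degree `m²` of the projective line with `φ_m (x(P)) = x(m P)`; for `m = 2` this is
`(x⁴ - 2 a x² - 8 b x + a²) / (4 (x³ + a x + b))`. Morton and Silverman's conjecture asks for a bound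
for the number of the preperiodic points of `φ_m` in `L` in terms of the degrees of `L` and of the
map.

For `j ∈ K`, `poleCount j` is the sum of `log N v` over the finite poles `v` of `j`, and `addCount j`
that over the primes `v`, prime to `6` and not poles of `j`, at which all elliptic curves over `K` of
invariant `j` have additive reduction of a type other than `I₀*`.

(1) Let `K` be a number field, `0 < θ ≤ 1`, and `j ∈ K` with
`poleCount j + addCount j / 2 ≥ (θ + κ) h(j)` and of absolute height at least `C / θ²`. Then for ALL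
finite extensions `L` of `K`, of whatever degree, with root discriminant `δ_L ≤ δ_K * H(j) ^ κ`, all
elliptic curves over `L` of invariant `j` and all `m ≥ 2`, the preperiodic points in `L` of the
Lattès map `φ_m` have at most `28 / θ²` iterates each, and there are at most `4 ^ (28 / θ² + 1)` of
them. The bounds depend on neither the degree of `L` nor the degree of the map.

(2) The conclusion of (1) holds for all `j ∈ K` of height at most `B` with at most
`(C * B ^ (1 / 3 + 4 (θ + κ) / 3 + ε)) ^ n` exceptions, `n = [K : ℚ]`, with `C` independent of `K`,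
while there are at least `(C⁻¹ * B ^ (2 - ε) * δ_K ^ (- (2 + ε))) ^ n` invariants if
`B ≥ 16 √δ_K`.

Proof: every `x ∈ L` is the abscissa of a point over `L` of a quadratic twist of `E`, so that the
preperiodic points are given by the torsion points over `L` of the twists, whose orders are bounded
in terms of `θ` only; the abscissas of the torsion points of order `n` are the roots of a polynomial
whose degree is bounded in terms of `n`.
-/

set_option autoImplicit false

namespace Pool.Agent.Results.MP_13bc7b_nt.LattesMapsDegreeFree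

open NumberField IsDedekindDomain
open Pool.Agent.TH942 (SPt)
open Pool.Agent.Results.MP_160b6c_nt.DegreeFreeTorsion

/-- `v` is preperiodic for `φ` (a map in homogeneous coordinates) as a point of the projective
line: two iterates are proportional. -/
def Preperiodic {L : Type} [Field L] (φ : L × L → L × L) (v : L × L) : Prop :=
  ∃ i k : ℕ, k < i ∧ (φ^[i] v).1 * (φ^[k] v).2 = (φ^[i] v).2 * (φ^[k] v).1

/-- The point `v = (v.1 : v.2)` of the projective line is `x(P) / D`, where `P` is a point of the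
quadratic twist `y² = x³ + D² a x + D³ b` of `y² = x³ + a x + b`. -/
def Below {L : Type} [Field L] {a b : L} (D : L) (P : SPt (a * D ^ 2) (b * D ^ 3)) (v : L × L) :
    Prop :=
  ∃ c : L, c ≠ 0 ∧ v = (c * P.xRep 0, c * D * P.xRep 1)

open Classical in
/-- `φ` (in homogeneous coordinates) is the Lattès map `x(P) ↦ x(m P)` of `y² = x³ + a x + b`, on the
projective line over `L`: all points of the line over `L` come from the points over `L` of the
quadratic twists. -/
def IsLattes {L : Type} [Field L] (m : ℕ) (a b : L) (φ : L × L → L × L) : Prop :=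
  ∀ D : L, D ≠ 0 → ∀ (P : SPt (a * D ^ 2) (b * D ^ 3)) (v : L × L), Below D P v →
    Below D (m • P) (φ v)

/-- the Lattès map of degree `4` in homogeneous coordinates -/
def lattes {L : Type} [Field L] (a b : L) (v : L × L) : L × L :=
  (v.1 ^ 4 - 2 * a * v.1 ^ 2 * v.2 ^ 2 - 8 * b * v.1 * v.2 ^ 3 + a ^ 2 * v.2 ^ 4,
    4 * v.2 * (v.1 ^ 3 + a * v.1 * v.2 ^ 2 + b * v.2 ^ 3))

/-- For all finite extensions `L` of `K` with root discriminant at most `δ_K * H(j) ^ κ` and all
Lattès maps of all elliptic curves over `L` of invariant `j`: there are at most `4 ^ (N + 1)`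
preperiodic points in `L` (apart from the point at infinity), and each of them has at most `N`
iterates, itself included. -/
def UniformBound {K : Type} [Field K] [NumberField K] (κ : ℝ) (N : ℕ) (j : K) : Prop :=
  ∀ (L : Type) [Field L] [NumberField L] [Algebra K L],
    rootDisc L ≤ rootDisc K * Real.exp (κ * absH j) →
    ∀ a b : L, 4 * a ^ 3 + 27 * b ^ 2 ≠ 0 → jInv a b = algebraMap K L j →
    ∀ (m : ℕ) (φ : L × L → L × L), 2 ≤ m → IsLattes m a b φ →
    (∀ s : Finset L, (∀ x ∈ s, Preperiodic φ (x, 1)) → s.card ≤ 4 ^ (N + 1)) ∧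
    (∀ x : L, Preperiodic φ (x, 1) → ∃ i k : ℕ, k < i ∧ i ≤ N ∧
      (φ^[i] (x, 1)).1 * (φ^[k] (x, 1)).2 = (φ^[i] (x, 1)).2 * (φ^[k] (x, 1)).1)

open Classical in
private theorem bound_of {K : Type} [Field K] [NumberField K] {κ B : ℝ} {j : K}
    (h : InExtensions κ B j) : UniformBound κ ⌊B⌋₊ j := by
  intro L _ _ _ hL a b hD hj m φ hm hφ
  suffices hT : ∀ D : L, D ≠ 0 → ∀ P : SPt (a * D ^ 2) (b * D ^ 3), IsOfFinAddOrder P →
      addOrderOf P ≤ ⌊B⌋₊ from
    ⟨fun s hs => Pool.Agent.Q103.LTS.count_preper hD ⌊B⌋₊ hT hm hφ s hs,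
      fun x hx => Pool.Agent.Q103.LTS.short_orbit hD ⌊B⌋₊ hT hm hφ x hx⟩
  intro D hD0 P hP
  have hj' : jInv (a * D ^ 2) (b * D ^ 3) = algebraMap K L j := by
    rw [← hj]
    unfold jInv
    have h1 : 4 * (a * D ^ 2) ^ 3 + 27 * (b * D ^ 3) ^ 2 = D ^ 6 * (4 * a ^ 3 + 27 * b ^ 2) := by
      ring
    have h2 : 6912 * (a * D ^ 2) ^ 3 = D ^ 6 * (6912 * a ^ 3) := by ring
    rw [h1, h2, mul_div_mul_left _ _ (pow_ne_zero _ hD0)]
  have h2 : IsOfFinAddOrder (fun _ : Fin 1 => P) := by
    rw [isOfFinAddOrder_iff_nsmul_eq_zero] at hP ⊢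
    obtain ⟨n, hn, hn0⟩ := hP
    refine ⟨n, hn, ?_⟩
    funext k
    rw [Pi.smul_apply, hn0, Pi.zero_apply]
  have h3 := h L hL _ _ (Pool.Agent.Q103.LTS.twist_disc hD0 hD) hj' 1 (fun _ => P) h2
  have h4 : addOrderOf P ≤ addOrderOf (fun _ : Fin 1 => P) := by
    apply addOrderOf_le_of_nsmul_eq_zero h2.addOrderOf_pos
    have h5 := congrFun (addOrderOf_nsmul_eq_zero (fun _ : Fin 1 => P)) 0
    rwa [Pi.smul_apply, Pi.zero_apply] at h5
  exact h4.trans (Nat.le_floor h3)

/-- **Main theorem.**
(1) The bounds `4 ^ (28 / θ² + 1)` for the number of the preperiodic points in `L` of the Lattès maps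
and `28 / θ²` for the lengths of their orbits, for a single invariant `j ∈ K` and all finite
extensions `L` of `K` with root discriminant at most `δ_K * H(j) ^ κ`, if
`poleCount j + addCount j / 2 ≥ (θ + κ) h(j)` and the absolute height of `j` is at least `C / θ²`.
(2) The exceptional invariants.
(3) The number of all invariants.
(4) The map of degree `4` is the Lattès map with `m = 2`. -/
theorem result :
    (∃ C : ℝ, 0 < C ∧ ∀ θ κ : ℝ, 0 < θ → θ ≤ 1 →
      ∀ (K : Type) [Field K] [NumberField K] (j : K), j ≠ 0 → j ≠ 1728 →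
        (θ + κ) * Height.logHeight₁ j ≤ poleCount j + addCount j / 2 → C / θ ^ 2 ≤ absH j →
        UniformBound κ ⌊28 / θ ^ 2⌋₊ j) ∧
    (∀ θ κ ε : ℝ, 0 < θ → θ ≤ 1 → 0 ≤ κ → 0 < ε → ∃ C : ℝ, 0 < C ∧
      ∀ (K : Type) [Field K] [NumberField K] (B : ℝ), 1 ≤ B →
        (Inv K B).Finite ∧
        ((({j ∈ Inv K B | ¬ UniformBound κ ⌊28 / θ ^ 2⌋₊ j} : Set K).ncard : ℕ) : ℝ) ≤
          (C * B ^ (1 / 3 + 4 / 3 * (θ + κ) + ε)) ^ Module.finrank ℚ K) ∧
    (∀ ε : ℝ, 0 < ε → ∃ C : ℝ, 0 < C ∧
      ∀ (K : Type) [Field K] [NumberField K] (B : ℝ), 16 * √(rootDisc K) ≤ B →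
        (C⁻¹ * B ^ (2 - ε) * rootDisc K ^ (-(2 + ε))) ^ Module.finrank ℚ K ≤
          ((Inv K B).ncard : ℝ)) ∧
    (∀ (L : Type) [Field L] [CharZero L] (a b : L), 4 * a ^ 3 + 27 * b ^ 2 ≠ 0 →
      IsLattes 2 a b (lattes a b)) := by
  classical
  refine ⟨?_, ?_, MP_160b6c_nt.DegreeFreeTorsion.result.2.2.2, ?_⟩
  · obtain ⟨C, hC, h⟩ := part_one
    exact ⟨C, hC, fun θ κ hθ hθ1 K _ _ j h0 h1 hf hh =>
      bound_of (h θ κ hθ hθ1 K j h0 h1 hf hh)⟩
  · intro θ κ ε hθ hθ1 hκ hε
    obtain ⟨C, hC, h⟩ := part_two θ κ ε hθ hθ1 hκ hε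
    refine ⟨C, hC, fun K _ _ B hB => ?_⟩
    obtain ⟨h1, h2⟩ := h K B hB
    refine ⟨h1, le_trans ?_ h2⟩
    have h3 : (Exc K θ κ B).Finite := h1.subset fun j hj => hj.1
    have h4 : {j ∈ Inv K B | ¬ UniformBound κ ⌊28 / θ ^ 2⌋₊ j} ⊆ Exc K θ κ B := by
      rintro j ⟨hj1, hj2⟩
      exact ⟨hj1, fun h5 => hj2 (bound_of h5)⟩
    exact_mod_cast Set.ncard_le_ncard h4 h3
  · intro L _ _ a b hD D hD0 P v hv
    have := Pool.Agent.Q103.LTS.isLattes_lat hD D hD0 P v hv
    exact this

end Pool.Agent.Results.MP_13bc7b_nt.LattesMapsDegreeFree
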