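import Pool.Agent.Q256.MP.All3
import Pool.Agent.Q256.MP.Law2

/-!
# The law of the number of preperiodic points of endomorphisms of `ℙ^N`

Let `N, D, m ≥ 1` and let `d` be large enough in terms of `N, D, m`. Let `F` run through the
endomorphisms of `ℙ^N` of degree `d` given by `N + 1` forms with integral coefficients of absolute value
at most `H`; there are about `(2 H) ^ Q` of them, `Q = (N + 1) * binom (N + d) N`. A point of degree at
most `D` over `ℚ` is small for `F` if it is preperiodic or of canonical height less than `θ log H`.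

* The number of the `F` with at least `m` small points, divided by `H ^ (Q - m N)`, converges to a
positive number, for every `θ` in `[0, θ₀]`, and this number does not depend on `θ`; for `θ = 0` the
small points are the preperiodic points.
* More precisely: a portrait is the graph of a self-map of a set of `m` points of degree at most `D` in
`ℙ^N` which is stable under the automorphisms of `ℂ` (the graph of a Galois equivariant self-map of a
Galois stable set of algebraic points). There is a summable function `w ≥ 0` on all sets of pairs of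
points, positive exactly at the portraits, such that for every set `𝒢` of graphs the number of the `F`
with exactly `m` small points on which `F` acts with a graph in `𝒢`, divided by `H ^ (Q - m N)`,
converges to the sum of `w` over `𝒢`. So the graph on the small points of an endomorphism with at least
`m` small points has a limit law as `H → ∞`, without loss of mass, and its support is the set of all
graphs which are possible at all.

The proof: large points are excluded by a lower bound of the height of the image which is free of the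
points (counting the systems of forms which map a point of large height to a point of smaller height,
project GE of the starting library); the points of small height are excluded in pairs, triples, ... by
the independence of the conditions `F (p_i) = q_i` at different points (`d` is large), with the exact
power of `H` for the points of bounded height and with a convergent sum over their heights. Parts by
helpers 38, 96, 121, 123, 129, 137, 153, 164, 176, 181, 182, 190, 193, 195, 198, 210, 214, 222, 237, 275,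
277, 285.
-/

set_option autoImplicit false

open MvPolynomial Height Filter Topology
open scoped LinearAlgebra.Projectivization

namespace Pool.Agent.Results.MP_13bc7b_nt.LawOfPreperiodicPoints

/-- The self-map of `K^(N+1)` given by the system `F`. -/
noncomputable def act (K : Type) [Field K] {N : ℕ} (F : Fin (N + 1) → MvPolynomial (Fin (N + 1)) ℤ)
    (x : Fin (N + 1) → K) : Fin (N + 1) → K :=
  fun i => aeval x (F i)

/-- The endomorphisms of `ℙ^N` of degree `d` given by `N + 1` forms with integral coefficients of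
absolute value at most `H`, without common zero in `ℂ^(N+1)` except `0`. -/
def Endo (N d H : ℕ) : Set (Fin (N + 1) → MvPolynomial (Fin (N + 1)) ℤ) :=
  {F | (∀ i, (F i).IsHomogeneous d ∧ ∀ μ, |(F i).coeff μ| ≤ H) ∧
    ∀ x : Fin (N + 1) → ℂ, act ℂ F x = 0 → x = 0}

/-- The point with homogeneous coordinates `x` is preperiodic: two different iterates of it are
equal, i.e. proportional as vectors. -/
def IsPreperiodic (K : Type) [Field K] {N : ℕ} (F : Fin (N + 1) → MvPolynomial (Fin (N + 1)) ℤ)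
    (x : Fin (N + 1) → K) : Prop :=
  ∃ k l : ℕ, k < l ∧ ∃ c : K, c ≠ 0 ∧ (act K F)^[l] x = c • (act K F)^[k] x

/-- The absolute logarithmic height of the `k`-th iterate of the point with homogeneous coordinates
`x` is at least `t * d ^ k` for all large `k`. -/
def Grows (d : ℕ) (t : ℝ) (K : Type) [Field K] [NumberField K] {N : ℕ}
    (F : Fin (N + 1) → MvPolynomial (Fin (N + 1)) ℤ) (x : Fin (N + 1) → K) : Prop :=
  ∃ k₀ : ℕ, ∀ k, k₀ ≤ k →
    t * (d : ℝ) ^ k ≤ Real.log (mulHeight ((act K F)^[k] x)) / Module.finrank ℚ K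

/-- The small points of `F`: the points of `ℙ^N(ℂ)` with homogeneous coordinates in a number field of
degree at most `D` which are preperiodic, or such that not all heights of large iterates are at least
`t * d ^ k` (then the canonical height, the limit of these heights divided by `d ^ k`, is at most `t`;
all points of degree at most `D` and canonical height less than `t` are small). For `t ≤ 0` these are
the preperiodic points of degree at most `D`. -/
def Small (N d D : ℕ) (t : ℝ) (F : Fin (N + 1) → MvPolynomial (Fin (N + 1)) ℤ) :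
    Set (ℙ ℂ (Fin (N + 1) → ℂ)) :=
  {p | ∃ (K : Type) (_ : Field K) (_ : NumberField K) (φ : K →+* ℂ) (x : Fin (N + 1) → K)
    (h : (fun i => φ (x i)) ≠ 0), Module.finrank ℚ K ≤ D ∧
    p = Projectivization.mk ℂ (fun i => φ (x i)) h ∧ (IsPreperiodic K F x ∨ ¬ Grows d t K F x)}

/-- The point `p` has homogeneous coordinates in a number field of degree at most `D`. -/
def HasDegreeAtMost (N D : ℕ) (p : ℙ ℂ (Fin (N + 1) → ℂ)) : Prop :=
  ∃ (K : Type) (_ : Field K) (_ : NumberField K) (φ : K →+* ℂ) (x : Fin (N + 1) → K)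
    (h : (fun i => φ (x i)) ≠ 0), Module.finrank ℚ K ≤ D ∧
    p = Projectivization.mk ℂ (fun i => φ (x i)) h

theorem conj_ne_zero {N : ℕ} (τ : ℂ ≃+* ℂ) (p : ℙ ℂ (Fin (N + 1) → ℂ)) :
    (fun j => τ (p.rep j)) ≠ 0 := by
  intro h
  apply p.rep_nonzero
  funext j
  exact (map_eq_zero τ).1 (congrFun h j)

/-- The conjugate of the point `p` under the automorphism `τ` of `ℂ`. -/
noncomputable def conj {N : ℕ} (τ : ℂ ≃+* ℂ) (p : ℙ ℂ (Fin (N + 1) → ℂ)) :
    ℙ ℂ (Fin (N + 1) → ℂ) :=
  Projectivization.mk ℂ (fun j => τ (p.rep j)) (conj_ne_zero τ p)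

/-- `G` is the graph of a self-map of a set of `m` points of degree at most `D`, and it is stable under
the automorphisms of `ℂ`. -/
def IsPortrait (N D m : ℕ) (G : Set (ℙ ℂ (Fin (N + 1) → ℂ) × ℙ ℂ (Fin (N + 1) → ℂ))) : Prop :=
  (∃ (p : Fin m → ℙ ℂ (Fin (N + 1) → ℂ)) (σ : Fin m → Fin m), Function.Injective p ∧
    (∀ i, HasDegreeAtMost N D (p i)) ∧ G = Set.range fun i => (p i, p (σ i))) ∧
  ∀ τ : ℂ ≃+* ℂ, ∀ x ∈ G, (conj τ x.1, conj τ x.2) ∈ G

/-- The point `q` is the image of the point `p` under `F`. -/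
def IsImage {N : ℕ} (F : Fin (N + 1) → MvPolynomial (Fin (N + 1)) ℤ)
    (p q : ℙ ℂ (Fin (N + 1) → ℂ)) : Prop :=
  ∃ (x : Fin (N + 1) → ℂ) (hx : x ≠ 0) (hy : act ℂ F x ≠ 0),
    p = Projectivization.mk ℂ x hx ∧ q = Projectivization.mk ℂ (act ℂ F x) hy

/-- The graph of `F` on its small points: the pairs `(p, F(p))` with `p` small. -/
def graph (N d D : ℕ) (t : ℝ) (F : Fin (N + 1) → MvPolynomial (Fin (N + 1)) ℤ) :
    Set (ℙ ℂ (Fin (N + 1) → ℂ) × ℙ ℂ (Fin (N + 1) → ℂ)) :=
  {x | x.1 ∈ Small N d D t F ∧ IsImage F x.1 x.2}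

open Pool.Agent.W276.GE Pool.Agent.Q256.MP

theorem act_eq (K : Type) [Field K] {N d H : ℕ} {F : Fin (N + 1) → MvPolynomial (Fin (N + 1)) ℤ}
    (hF : F ∈ PS N d H) : act K F = fm (fun i => cf d (F i)) K := by
  funext x i
  exact aeval_eq_ev (hF i).1 x

theorem noZero_iff {N d H : ℕ} {F : Fin (N + 1) → MvPolynomial (Fin (N + 1)) ℤ}
    (hF : F ∈ PS N d H) :
    (∀ x : Fin (N + 1) → ℂ, act ℂ F x = 0 → x = 0) ↔ NoZero fun i => cf d (F i) := by
  unfold NoZero
  refine forall_congr' fun x => ?_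
  rw [act_eq ℂ hF, funext_iff]
  rfl

theorem pre_iff (K : Type) [Field K] {N d H : ℕ}
    {F : Fin (N + 1) → MvPolynomial (Fin (N + 1)) ℤ} (hF : F ∈ PS N d H) (x : Fin (N + 1) → K) :
    IsPreperiodic K F x ↔ Pp (fun i => cf d (F i)) K x := by
  unfold IsPreperiodic Pp
  rw [act_eq K hF]

theorem grows_iff (K : Type) [Field K] [NumberField K] {N d H : ℕ} (θ : ℝ)
    {F : Fin (N + 1) → MvPolynomial (Fin (N + 1)) ℤ} (hF : F ∈ PS N d H) (x : Fin (N + 1) → K) :
    Grows d (θ * Real.log H) K F x ↔ Gr θ H (fun i => cf d (F i)) K x := by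
  unfold Grows Gr
  rw [act_eq K hF]
  have hpos : (0 : ℝ) < Module.finrank ℚ K := by exact_mod_cast Module.finrank_pos
  refine exists_congr fun k₀ => forall_congr' fun k => imp_congr_right fun _ => ?_
  rw [le_div_iff₀ hpos]
  have : θ * Real.log H * (d : ℝ) ^ k * (Module.finrank ℚ K : ℝ) =
    θ * (d : ℝ) ^ k * Real.log H * (Module.finrank ℚ K : ℝ) := by ring
  rw [this]

/-- from `Small` to `Rep` -/
theorem rep_of_small {N d D H : ℕ} {θ : ℝ} {F : Fin (N + 1) → MvPolynomial (Fin (N + 1)) ℤ}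
    (hF : F ∈ PS N d H) {p : ℙ ℂ (Fin (N + 1) → ℂ)} (hp : p ∈ Small N d D (θ * Real.log H) F) :
    ∃ (z : Fin (N + 1) → ℂ) (h : z ≠ 0), p = Projectivization.mk ℂ z h ∧
      Rep (N + 1) D (fun K _ _ P => Pp (fun i => cf d (F i)) K P ∨
        ¬ Gr θ H (fun i => cf d (F i)) K P) z := by
  obtain ⟨K, i1, i2, φ, x, h, hK, hpx, hx⟩ := hp
  refine ⟨_, h, hpx, K, i1, i2, φ, x, hK, ?_, ?_, rfl⟩
  · rintro rfl
    apply h
    funext i
    simp
  · rcases hx with hx | hx
    · exact Or.inl ((pre_iff K hF x).1 hx)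
    · exact Or.inr fun h2 => hx ((grows_iff K θ hF x).2 h2)

theorem small_eq {N d D H : ℕ} (θ : ℝ) {F : Fin (N + 1) → MvPolynomial (Fin (N + 1)) ℤ}
    (hF : F ∈ PS N d H) :
    Small N d D (θ * Real.log H) F = Sm N D θ H (fun i => cf d (F i)) := by
  ext p
  constructor
  · intro hp
    obtain ⟨z, hz, hpz, hrep⟩ := rep_of_small hF hp
    exact ⟨z, hz, hpz, hrep⟩
  · rintro ⟨z, hz, hpz, K, i1, i2, φ, P, hK, hP, hx, rfl⟩
    refine ⟨K, i1, i2, φ, P, hz, hK, hpz, ?_⟩
    rcases hx with hx | hx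
    · exact Or.inl ((pre_iff K hF P).2 hx)
    · exact Or.inr fun h2 => hx ((grows_iff K θ hF P).1 h2)

theorem isImage_iff {N d H : ℕ} {F : Fin (N + 1) → MvPolynomial (Fin (N + 1)) ℤ}
    (hF : F ∈ PS N d H) (h0 : NoZero fun i => cf d (F i)) (p q : ℙ ℂ (Fin (N + 1) → ℂ)) :
    IsImage F p q ↔ Im (fun i => cf d (F i)) p q := by
  have hact := act_eq ℂ hF
  constructor
  · rintro ⟨x, hx, hy, hp, hq⟩
    have hpr : ∃ a : ℂ, a ≠ 0 ∧ p.rep = a • x := by
      have h1 : Projectivization.mk ℂ p.rep p.rep_nonzero = Projectivization.mk ℂ x hx := by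
        rw [p.mk_rep, hp]
      rw [Projectivization.mk_eq_mk_iff'] at h1
      obtain ⟨a, ha⟩ := h1
      refine ⟨a, ?_, ha.symm⟩
      rintro rfl
      exact p.rep_nonzero (by rw [← ha, zero_smul])
    obtain ⟨a, ha, hpa⟩ := hpr
    have hqr : ∃ b : ℂ, act ℂ F x = b • q.rep := by
      have h1 : Projectivization.mk ℂ (act ℂ F x) hy = Projectivization.mk ℂ q.rep q.rep_nonzero := by
        rw [q.mk_rep, hq]
      rw [Projectivization.mk_eq_mk_iff'] at h1
      obtain ⟨b, hb⟩ := h1
      exact ⟨b, hb.symm⟩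
    obtain ⟨b, hb⟩ := hqr
    refine ⟨a ^ d * b, fun j => ?_⟩
    have h2 : ev (cf d (F j)) p.rep = a ^ d * ev (cf d (F j)) x := by
      rw [hpa]
      exact ev_smul a _ x
    have h3 : ev (cf d (F j)) x = b * q.rep j := by
      have h4 := congrFun hb j
      rw [hact] at h4
      exact h4
    rw [h2, h3]
    ring
  · rintro ⟨c, hc⟩
    have h1 : act ℂ F p.rep = c • q.rep := by
      rw [hact]
      funext j
      exact hc j
    have hne : act ℂ F p.rep ≠ 0 := by
      intro h2
      apply p.rep_nonzero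
      apply h0
      intro i
      have h3 := congrFun h2 i
      rw [hact] at h3
      exact h3
    refine ⟨p.rep, p.rep_nonzero, hne, p.mk_rep.symm, ?_⟩
    rw [← q.mk_rep, Projectivization.mk_eq_mk_iff']
    have hc0 : c ≠ 0 := by
      rintro rfl
      exact hne (by rw [h1, zero_smul])
    refine ⟨c⁻¹, ?_⟩
    rw [h1, smul_smul, inv_mul_cancel₀ hc0, one_smul]

/-- the number of endomorphisms with a property in terms of coefficient families -/
theorem ncard_endo {N d H : ℕ} (Φ : (Fin (N + 1) → MvPolynomial (Fin (N + 1)) ℤ) → Prop)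
    (Ψ : Sy N d → Prop)
    (h : ∀ F ∈ PS N d H, (NoZero fun i => cf d (F i)) → (Φ F ↔ Ψ fun i => cf d (F i))) :
    ({F | F ∈ Endo N d H ∧ Φ F}.ncard : ℝ) = cnt N d H Ψ := by
  have h3 := ncard_PS N d H (fun F => NoZero (fun i => cf d (F i)) ∧ Ψ fun i => cf d (F i))
    (fun G => NoZero G ∧ Ψ G) (fun F _ => Iff.rfl)
  unfold cnt
  rw [← h3]
  congr 2
  ext F
  constructor
  · rintro ⟨⟨hF, h0⟩, hΦ⟩
    have hF' : F ∈ PS N d H := hF
    have h0' := (noZero_iff hF').1 h0
    exact ⟨hF', h0', (h F hF' h0').1 hΦ⟩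
  · rintro ⟨hF, h0, hΨ⟩
    exact ⟨⟨hF, (noZero_iff hF).2 h0⟩, (h F hF h0).2 hΨ⟩

theorem degree_iff {N D : ℕ} {p : ℙ ℂ (Fin (N + 1) → ℂ)} :
    HasDegreeAtMost N D p ↔ p ∈ Rp N D (fun _ _ _ _ => True) := by
  constructor
  · rintro ⟨K, i1, i2, φ, x, h, hK, hp⟩
    refine ⟨_, h, hp, K, i1, i2, φ, x, hK, ?_, trivial, rfl⟩
    rintro rfl
    apply h
    funext i
    simp
  · rintro ⟨z, hz, hpz, K, i1, i2, φ, P, hK, hP, -, rfl⟩
    exact ⟨K, i1, i2, φ, P, hz, hK, hpz⟩

theorem portrait_iff {N D m : ℕ} {G : Set (ℙ ℂ (Fin (N + 1) → ℂ) × ℙ ℂ (Fin (N + 1) → ℂ))} :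
    IsPortrait N D m G ↔ (∃ x : (Fin m → Fin m) × (Fin m → Pt N), Function.Injective x.2 ∧
        (∀ i, x.2 i ∈ Rp N D (fun _ _ _ _ => True)) ∧ Gph x = G) ∧ Stb G := by
  constructor
  · rintro ⟨⟨p, σ, hp, hD, rfl⟩, hS⟩
    exact ⟨⟨(σ, p), hp, fun i => degree_iff.1 (hD i), rfl⟩, hS⟩
  · rintro ⟨⟨x, hx, hR, rfl⟩, hS⟩
    exact ⟨⟨x.2, x.1, hx, fun i => degree_iff.2 (hR i), rfl⟩, hS⟩

theorem graph_eq {N d D H : ℕ} (θ : ℝ) {F : Fin (N + 1) → MvPolynomial (Fin (N + 1)) ℤ}
    (hF : F ∈ PS N d H) (h0 : NoZero fun i => cf d (F i)) :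
    graph N d D (θ * Real.log H) F = port N D θ H (fun i => cf d (F i)) := by
  unfold graph port
  rw [small_eq θ hF]
  simp only [isImage_iff hF h0]

/-- **The law of the number of preperiodic points.**  For `N, D, m ≥ 1` there is `d₀` such that for all
`d ≥ d₀`, with `Q = (N + 1) * binom (N + d) N > m N`, there are `θ₀ > 0` and a summable function `w ≥ 0`
on the sets of pairs of points, positive exactly at the graphs of self-maps of sets of `m` points of
degree at most `D` which are stable under the automorphisms of `ℂ`, with a positive sum, such that for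
all `θ` in `[0, θ₀]`, as `H → ∞`:

* the number of endomorphisms with coefficients at most `H` with at least `m` small points, divided by
`H ^ (Q - m N)`, tends to the sum of `w`;
* for every set `𝒢` of graphs the number of endomorphisms with exactly `m` small points and graph in
`𝒢`, divided by `H ^ (Q - m N)`, tends to the sum of `w` over `𝒢`. -/
theorem result (N D m : ℕ) (hN : 1 ≤ N) (hD : 1 ≤ D) (hm : 1 ≤ m) :
    ∃ d₀ : ℕ, ∀ d : ℕ, d₀ ≤ d →
    m * N < (N + 1) * (N + d).choose N ∧
    ∃ (θ₀ : ℝ) (w : Set (ℙ ℂ (Fin (N + 1) → ℂ) × ℙ ℂ (Fin (N + 1) → ℂ)) → ℝ), 0 < θ₀ ∧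
      (∀ G, 0 ≤ w G) ∧ Summable w ∧ 0 < ∑' G, w G ∧ (∀ G, 0 < w G ↔ IsPortrait N D m G) ∧
      ∀ θ : ℝ, 0 ≤ θ → θ ≤ θ₀ →
        Tendsto (fun H : ℕ =>
          ({F | F ∈ Endo N d H ∧ (m : ℕ∞) ≤ (Small N d D (θ * Real.log H) F).encard}.ncard : ℝ) /
            (H : ℝ) ^ ((N + 1) * (N + d).choose N - m * N)) atTop (𝓝 (∑' G, w G)) ∧
        ∀ 𝒢 : Set (Set (ℙ ℂ (Fin (N + 1) → ℂ) × ℙ ℂ (Fin (N + 1) → ℂ))),
          Tendsto (fun H : ℕ =>
            ({F | F ∈ Endo N d H ∧ (Small N d D (θ * Real.log H) F).encard = m ∧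
              graph N d D (θ * Real.log H) F ∈ 𝒢}.ncard : ℝ) /
              (H : ℝ) ^ ((N + 1) * (N + d).choose N - m * N)) atTop
            (𝓝 (∑' G, 𝒢.indicator w G)) := by
  obtain ⟨d₀, hd₀⟩ := law2 posi_all onl_all N D m hN hD hm
  refine ⟨d₀, fun d hd => ?_⟩
  obtain ⟨hQ, θ₀, W, hθ₀, hW0, hWs, hWsup, hlaw⟩ := hd₀ d hd
  have hcard : QQ N d = (N + 1) * (N + d).choose N := by rw [QQ, card_E]
  rw [hcard] at hQ
  have h1 : (m + 1) * N = m * N + N := by ring
  have hex : 0 < W (Gph (id, Pool.Agent.Q190.MP.ppt N m)) :=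
    (hWsup _).2 (ppt_portrait hN hD id)
  refine ⟨by omega, θ₀, W, hθ₀, hW0, hWs, ?_, fun G => (hWsup G).trans portrait_iff.symm,
    fun θ _ hθ => ?_⟩
  · exact hex.trans_le (hWs.le_tsum _ fun G _ => hW0 G)
  · obtain ⟨h2, h3⟩ := hlaw θ hθ
    rw [hcard] at h3
    refine ⟨h3.congr fun H => ?_, fun 𝒢 => ?_⟩
    · rw [ncard_endo (N := N) (d := d) (H := H) _ (fun F => (m : ℕ∞) ≤ (Sm N D θ H F).encard)
        (fun F hF _ => by rw [small_eq θ hF])]
    · have h4 := h2 𝒢
      rw [hcard] at h4
      refine h4.congr fun H => ?_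
      rw [ncard_endo (N := N) (d := d) (H := H) _ (fun F => (Sm N D θ H F).encard = m ∧
        port N D θ H F ∈ 𝒢) (fun F hF h0 => by rw [small_eq θ hF, graph_eq θ hF h0])]

end Pool.Agent.Results.MP_13bc7b_nt.LawOfPreperiodicPoints
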