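import Mathlib
import Pool.Agent.Q103.OP.Fam
import Pool.Agent.Q103.OP.Sym

/-!
# Strong uniform boundedness for 100% of the members of every family of endomorphisms of `P^N` which
are symmetric products of rational maps
-/

namespace Pool.Agent.Results.MP_13bc7b_nt.SymmetricProducts

open Polynomial NumberField Filter Topology

/-- With `φ(x) = (a x + b) / (c x + e)`, the map `p / q` of degree `d` satisfies
`φ ∘ (p / q) = (u / w) ∘ φ` for some `a, b, c, e` in `K` with `a e ≠ b c` and some polynomials
`u, w` of degree at most `d`, not both zero, with coefficients algebraic over `k`; the equation is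
written with denominators cleared. For an algebraically closed field `K` this says that `p / q` is
isotrivial. -/
def Isotrivial (k : Type*) {K : Type*} [Field k] [Field K] [Algebra k K] (p q : K[X])
    (d : ℕ) : Prop :=
  ∃ a b c e : K, a * e - b * c ≠ 0 ∧ ∃ u w : K[X], (u ≠ 0 ∨ w ≠ 0) ∧
    u.natDegree ≤ d ∧ w.natDegree ≤ d ∧ (∀ n, IsAlgebraic k (u.coeff n)) ∧
    (∀ n, IsAlgebraic k (w.coeff n)) ∧
    (C a * p + C b * q) * ∑ i ∈ Finset.range (d + 1),
      C (w.coeff i) * (C a * X + C b) ^ i * (C c * X + C e) ^ (d - i) =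
    (C c * p + C e * q) * ∑ i ∈ Finset.range (d + 1),
      C (u.coeff i) * (C a * X + C b) ^ i * (C c * X + C e) ^ (d - i)

/-- The map `f = p / q` of degree `d` is a flexible Lattes map (`K` is algebraically closed of
characteristic zero): there is a rational function `φ = r / s`, not zero, such that
`φ(f(z)) f'(z) ^ 2 = d φ(z)` for all `z` in `K` at which the denominators do not vanish. -/
def FlexibleLattes {K : Type*} [Field K] (p q : K[X]) (d : ℕ) : Prop :=
  ∃ r s : K[X], r ≠ 0 ∧ s ≠ 0 ∧ ∀ z : K, q.eval z ≠ 0 → s.eval z ≠ 0 →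
    s.eval (p.eval z / q.eval z) ≠ 0 →
    r.eval (p.eval z / q.eval z) / s.eval (p.eval z / q.eval z) *
      ((derivative p * q - p * derivative q).eval z / q.eval z ^ 2) ^ 2 =
    (d : K) * (r.eval z / s.eval z)

/-- The field `k(t_1, ..., t_m)`. -/
abbrev RF (k : Type) [Field k] (m : ℕ) : Type := FractionRing (MvPolynomial (Fin m) k)

/-- `P ∈ k[t_1, ..., t_m][x]` as a polynomial over `k(t_1, ..., t_m)`. -/
noncomputable def generic {k : Type} [Field k] {m : ℕ} (P : (MvPolynomial (Fin m) k)[X]) :
    (RF k m)[X] :=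
  P.map (algebraMap (MvPolynomial (Fin m) k) (RF k m))

/-- `P ∈ k[t_1, ..., t_m][x]` as a polynomial over an algebraic closure of `k(t_1, ..., t_m)`. -/
noncomputable def genBar {k : Type} [Field k] {m : ℕ} (P : (MvPolynomial (Fin m) k)[X]) :
    (AlgebraicClosure (RF k m))[X] :=
  (generic P).map (algebraMap (RF k m) (AlgebraicClosure (RF k m)))

/-- The specialisation of `P ∈ k[t_1, ..., t_m][x]` at `t = (v_1 / v_0, ..., v_m / v_0)`. -/
noncomputable def special {k : Type} [Field k] {m : ℕ} (v : Fin (m + 1) → 𝓞 k)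
    (P : (MvPolynomial (Fin m) k)[X]) : k[X] :=
  P.map (MvPolynomial.eval fun l : Fin m =>
    algebraMap (𝓞 k) k (v l.succ) / algebraMap (𝓞 k) k (v 0))

/-- The vectors of integers of `k` whose coordinates with respect to the basis `ω` are at most `H`
in absolute value. -/
def box {k : Type} [Field k] {J : Type} (ω : Module.Basis J ℤ (𝓞 k)) (m H : ℕ) :
    Set (Fin (m + 1) → 𝓞 k) :=
  {v | ∀ l j, |ω.repr (v l) j| ≤ (H : ℤ)}

/-- The set `S` contains 100% of the vectors in the boxes. -/
def AlmostAll {k : Type} [Field k] {J : Type} (ω : Module.Basis J ℤ (𝓞 k)) (m : ℕ)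
    (S : Set (Fin (m + 1) → 𝓞 k)) : Prop :=
  Tendsto (fun H : ℕ => (({v | v ∈ box ω m H ∧ v ∈ S}.ncard : ℝ) / ((box ω m H).ncard : ℝ)))
    atTop (𝓝 1)

/-- The value at the vector `(a, b)` of the lift of `p / q`: the pair of the forms of degree `d` in
two variables given by `p` and `q`. -/
noncomputable def lift {k : Type} [Field k] (p q : k[X]) (d : ℕ)
    (Z : AlgebraicClosure k × AlgebraicClosure k) : AlgebraicClosure k × AlgebraicClosure k :=
  (∑ i ∈ Finset.range (d + 1), algebraMap k _ (p.coeff i) * Z.1 ^ i * Z.2 ^ (d - i),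
    ∑ i ∈ Finset.range (d + 1), algebraMap k _ (q.coeff i) * Z.1 ^ i * Z.2 ^ (d - i))

/-- The map `π` from `(P^1)^N` to `P^N`, on coordinate vectors: it sends the points `(a_i : b_i)`
to the vector of the `N + 1` coefficients of the product of the `b_i X - a_i`. -/
noncomputable def symm {k : Type} [Field k] {N : ℕ}
    (v : Fin N → AlgebraicClosure k × AlgebraicClosure k) : Fin (N + 1) → AlgebraicClosure k :=
  fun j => (∏ i, (C (v i).2 * X - C (v i).1)).coeff j

/-- The map on coordinate vectors given by the polynomials `F_0, ..., F_N` over `k`. -/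
noncomputable def evalMap {k : Type} [Field k] {N : ℕ}
    (F : Fin (N + 1) → MvPolynomial (Fin (N + 1)) k) (y : Fin (N + 1) → AlgebraicClosure k) :
    Fin (N + 1) → AlgebraicClosure k :=
  fun j => MvPolynomial.aeval y (F j)

/-- The forms `F_0, ..., F_N` of degree `d` define an endomorphism `Φ` of `P^N` over `k` which is
the `N`-th symmetric product of the map `f = p / q` of degree `d`:
`Φ(π(x_1, ..., x_N)) = π(f(x_1), ..., f(x_N))` for all points `x_1, ..., x_N` of the projective line
over an algebraic closure of `k`. -/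
def IsSymmetricProduct {k : Type} [Field k] {N : ℕ}
    (F : Fin (N + 1) → MvPolynomial (Fin (N + 1)) k) (p q : k[X]) (d : ℕ) : Prop :=
  (∀ j, (F j).IsHomogeneous d) ∧
  ∀ v : Fin N → AlgebraicClosure k × AlgebraicClosure k, (∀ i, v i ≠ 0) →
    ∃ c : AlgebraicClosure k, c ≠ 0 ∧ evalMap F (symm v) = c • symm fun i => lift p q d (v i)

/-- The preperiodic points of degree at most `B` over `k` of the endomorphism of `P^N` given by the
forms `F_0, ..., F_N`: the points of `P^N` over an algebraic closure of `k` two of whose iterates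
are equal (two iterates of a coordinate vector are proportional), and which have coordinates in an
extension of `k` of degree at most `B`. -/
def PrePer {k : Type} [Field k] {N : ℕ} (F : Fin (N + 1) → MvPolynomial (Fin (N + 1)) k)
    (B : ℕ) : Set (Projectivization (AlgebraicClosure k) (Fin (N + 1) → AlgebraicClosure k)) :=
  {z | (∃ i j : ℕ, i < j ∧ ∃ c : AlgebraicClosure k, c ≠ 0 ∧
      (evalMap F)^[i] z.rep = c • (evalMap F)^[j] z.rep) ∧
    ∃ E : IntermediateField k (AlgebraicClosure k), FiniteDimensional k E ∧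
      Module.finrank k E ≤ B ∧ ∃ c : AlgebraicClosure k, c ≠ 0 ∧ ∀ j, c * z.rep j ∈ E}

lemma almostAll_mono {k : Type} [Field k] [NumberField k] {J : Type} [Fintype J]
    {ω : Module.Basis J ℤ (𝓞 k)} {m : ℕ}
    {S T : Set (Fin (m + 1) → 𝓞 k)} (h : AlmostAll ω m S) (hST : S ⊆ T) : AlmostAll ω m T := by
  have hfin : ∀ H : ℕ, (box ω m H).Finite := by
    intro H
    have h1 : Set.InjOn (fun (v : Fin (m + 1) → 𝓞 k) (l : Fin (m + 1)) (j : J) => ω.repr (v l) j)
        (box ω m H) := by
      intro v _ w _ hvw
      funext l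
      apply ω.repr.injective
      ext j
      exact congrFun (congrFun hvw l) j
    apply Set.Finite.of_finite_image _ h1
    refine Set.Finite.subset (s := Set.pi Set.univ fun _ => Set.pi Set.univ fun _ =>
      Set.Icc (-(H : ℤ)) H) (Set.Finite.pi fun _ => Set.Finite.pi fun _ => Set.finite_Icc _ _) ?_
    rintro _ ⟨v, hv, rfl⟩
    intro l _ j _
    exact abs_le.mp (hv l j)
  refine tendsto_of_tendsto_of_tendsto_of_le_of_le h tendsto_const_nhds (fun H => ?_) fun H => ?_
  · show (({v | v ∈ box ω m H ∧ v ∈ S}.ncard : ℝ) / ((box ω m H).ncard : ℝ)) ≤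
      (({v | v ∈ box ω m H ∧ v ∈ T}.ncard : ℝ) / ((box ω m H).ncard : ℝ))
    apply div_le_div_of_nonneg_right _ (Nat.cast_nonneg _)
    have : {v | v ∈ box ω m H ∧ v ∈ S} ⊆ {v | v ∈ box ω m H ∧ v ∈ T} :=
      fun v hv => ⟨hv.1, hST hv.2⟩
    exact_mod_cast Set.ncard_le_ncard this ((hfin H).subset fun v hv => hv.1)
  · show (({v | v ∈ box ω m H ∧ v ∈ T}.ncard : ℝ) / ((box ω m H).ncard : ℝ)) ≤ 1
    apply div_le_one_of_le₀ _ (Nat.cast_nonneg _)
    exact_mod_cast Set.ncard_le_ncard (fun v (hv : v ∈ {v | v ∈ box ω m H ∧ v ∈ T}) => hv.1)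
      (hfin H)

/-- **Symmetric products.** There is a function `M` such that the following holds for every number
field `k` (of any degree), every integral basis `ω` of `k`, all `N ≥ 1`, `d ≥ 2`, `B ≥ 1` and every
`m`. Let `f = P / Q` be a rational map of degree `d` over `k(t_1, ..., t_m)`,
`P, Q ∈ k[t_1, ..., t_m][x]`, which is not isotrivial. Suppose that `d` is not a perfect square or
that `f` is not a flexible Lattes map. Then for 100% of the vectors `(v_0, v_1, ..., v_m)` of
integers of `k` (in the boxes given by the basis `ω`) `v_0 ≠ 0`, the specialisation `f_t` at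
`t = (v_1 / v_0, ..., v_m / v_0)` has degree `d`, and the endomorphism of `P^N` of degree `d` over
`k` which is the `N`-th symmetric product of `f_t` has at most `M(N, B, d)` preperiodic points of
degree at most `B` over `k`. -/
theorem result : ∃ M : ℕ → ℕ → ℕ → ℕ, ∀ (k : Type) [Field k] [NumberField k] (J : Type)
    [Fintype J] (ω : Module.Basis J ℤ (𝓞 k)) (N d B : ℕ), 1 ≤ N → 2 ≤ d → 1 ≤ B →
    ∀ (m : ℕ) (P Q : (MvPolynomial (Fin m) k)[X]), max P.natDegree Q.natDegree = d →
      IsCoprime (generic P) (generic Q) → ¬ Isotrivial k (genBar P) (genBar Q) d →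
      (¬ IsSquare d ∨ ¬ FlexibleLattes (genBar P) (genBar Q) d) →
      AlmostAll ω m {v | v 0 ≠ 0 ∧ IsCoprime (special v P) (special v Q) ∧
        max (special v P).natDegree (special v Q).natDegree = d ∧
        ∀ F : Fin (N + 1) → MvPolynomial (Fin (N + 1)) k,
          IsSymmetricProduct F (special v P) (special v Q) d →
          (PrePer F B).encard ≤ ((M N B d : ℕ) : ℕ∞)} := by
  obtain ⟨M, hM⟩ := Pool.Agent.Q103.OP.Fam.fam
  refine ⟨fun N B d => M (B * N) d ^ N, ?_⟩
  intro k _ _ J _ ω N d B hN hd hB m P Q hmax hco hiso hcase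
  have hcz0 : CharZero (RF k m) :=
    charZero_of_injective_algebraMap (R := k) (algebraMap k _).injective
  have hcz1 : CharZero (AlgebraicClosure (RF k m)) :=
    charZero_of_injective_algebraMap (algebraMap (RF k m) (AlgebraicClosure (RF k m))).injective
  have hinj : Function.Injective (algebraMap (MvPolynomial (Fin m) k) (RF k m)) :=
    IsFractionRing.injective _ _
  have hlat : ¬ Pool.Agent.Q103.OP.Lat d (genBar P) (genBar Q) := by
    intro hlat
    rcases hcase with h | h
    · refine h (Pool.Agent.Q103.OP.t_SQR _ d hd _ _ ⟨?_, ?_⟩ hlat)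
      · exact (isCoprime_map _).mpr hco
      · have hdeg : ∀ P : (MvPolynomial (Fin m) k)[X], (genBar P).natDegree = P.natDegree := by
          intro P
          unfold genBar generic
          rw [natDegree_map_eq_of_injective (algebraMap (RF k m) _).injective,
            natDegree_map_eq_of_injective hinj]
        rw [hdeg, hdeg]
        exact hmax
    · apply h
      obtain ⟨e, r, s, hr, hs, hre, hse, hid⟩ := hlat
      refine ⟨r, s, hr, hs, fun z hq hsz hsf => ?_⟩
      have h1 := congrArg (eval z) hid
      simp only [eval_mul, eval_pow, eval_C] at h1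
      rw [Pool.Agent.W277.UH.hc_eval, Pool.Agent.W277.UH.hc_eval,
        Pool.Agent.W277.UH.hev_eval e r hre ((genBar P).eval z, (genBar Q).eval z) hq,
        Pool.Agent.W277.UH.hev_eval e s hse ((genBar P).eval z, (genBar Q).eval z) hq] at h1
      simp only at h1
      have hqe : (genBar Q).eval z ^ e ≠ 0 := pow_ne_zero _ hq
      have h2 : r.eval ((genBar P).eval z / (genBar Q).eval z) *
          (Pool.Agent.Q103.OP.Wr (genBar P) (genBar Q)).eval z ^ 2 * s.eval z =
          (d : AlgebraicClosure (RF k m)) * r.eval z *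
            s.eval ((genBar P).eval z / (genBar Q).eval z) * (genBar Q).eval z ^ 4 := by
        apply mul_left_cancel₀ hqe
        linear_combination h1
      have h3 : (Pool.Agent.Q103.OP.Wr (genBar P) (genBar Q)).eval z =
          (derivative (genBar P) * genBar Q - genBar P * derivative (genBar Q)).eval z := rfl
      rw [h3] at h2
      rw [div_pow, div_mul_div_comm, mul_div_assoc',
        div_eq_div_iff (mul_ne_zero hsf (by positivity)) hsz]
      linear_combination h2
  have h := hM k J ω d (B * N) hd (Nat.mul_pos hB hN) m P Q hmax hco hiso hlat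
  refine almostAll_mono h ?_
  rintro v ⟨h1, h2, h3, h4⟩
  refine ⟨h1, h2, h3, fun F hF => ?_⟩
  have hSP : Pool.Agent.Q103.OP.Sym.SymProd (AlgebraicClosure k) F (special v P) (special v Q) d := by
    intro w hw
    obtain ⟨c, hc, h5⟩ := hF.2 w hw
    refine ⟨c, hc, ?_⟩
    have e1 : ∀ Z : AlgebraicClosure k × AlgebraicClosure k, Pool.Agent.Y706.CH.bK d
        ((special v P).map (algebraMap k (AlgebraicClosure k)))
        ((special v Q).map (algebraMap k (AlgebraicClosure k))) Z =
        lift (special v P) (special v Q) d Z := by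
      intro Z
      unfold Pool.Agent.Y706.CH.bK Pool.Agent.W277.UH.hev lift
      simp only [coeff_map]
    simp only [e1]
    exact h5
  exact Pool.Agent.Q103.OP.Sym.sym_count (k := k) (Ω := AlgebraicClosure k) hN (by omega)
    ⟨h2, h3⟩ hSP B _ h4

end Pool.Agent.Results.MP_13bc7b_nt.SymmetricProducts
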